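import Mathlib

/-!
# A special wide Aronszajn tree which does not embed into any `ω₁`-tree

We prove in ZFC that there is a special normal tree `S` of height `ω₁` with levels of size at most
`ℵ₁` which does not embed into any `ω₁`-tree.

The nodes of `S` are functions `t` on countable ordinals such that `t` restricted to `ω` is an
initial segment of one of `ℵ₁` many given elements of `2^ω`, and such that `t` above `ω` is a step
function with finitely many steps, the `k`-th step having the value `(k, a)` where `a < ω₁` is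
larger than all the ordinals in that step. The tree `S` is special: the colour of a node `t` with
domain `β > ω` and with last value `(k, a)` is `(k, e_a(β))` where `e_a : a + 1 → ω` is injective.

If `e` embeds `S` into an `ω₁`-tree, then the finite levels of `S` form a countable set, so that the
levels of their images are at most `η` for some `η < ω₁`, and the uncountable level `ω` of `S`
is mapped one-to-one into the countable set of the nodes of levels `≤ η` (by `e` followed
by the projection to the level `η`).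
-/

set_option autoImplicit false

open Cardinal Ordinal Set

namespace Pool.Agent.Results.MP_6e75db_lc.SpecialWideTree

universe u

/-! ### Trees -/

/-- A tree is a partial order in which the predecessors of each node form a well-order. -/
def IsTree (T : Type u) [PartialOrder T] : Prop :=
  ∀ x : T, IsWellOrder (Iio x) (· < ·)

/-- The level `T_α` of a tree `T` is the set of nodes whose predecessor set has order type `α`, that
is, whose predecessor set is order-isomorphic to the set of all ordinals less than `α`. -/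
def level (T : Type u) [PartialOrder T] (α : Ordinal.{u}) : Set T :=
  {x | Nonempty (Iio x ≃o Iio α)}

/-- The height of a tree is the least `α` with `T_α = ∅`. -/
def HasHeight (T : Type u) [PartialOrder T] (κ : Ordinal.{u}) : Prop :=
  IsLeast {α | level T α = ∅} κ

/-- A tree of height `κ` is normal: it has exactly one root, every node is comparable with some node
on every level below the height, and two distinct nodes on a limit level differ in their projections
to some level below. -/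
def IsNormal (T : Type u) [PartialOrder T] (κ : Ordinal.{u}) : Prop :=
  (∃! x, x ∈ level T 0) ∧
  (∀ x : T, ∀ α < κ, ∃ y ∈ level T α, x ≤ y ∨ y ≤ x) ∧
  ∀ α, Order.IsSuccLimit α → ∀ x ∈ level T α, ∀ y ∈ level T α, x ≠ y →
    ∃ β < α, ∃ x' ∈ level T β, ∃ y' ∈ level T β, x' < x ∧ y' < y ∧ x' ≠ y'

/-- An `(ω₁, ≤ ℵ₁)`-Aronszajn tree: a normal tree of height `ω₁` whose levels all have size at
most `ℵ₁` and which has no branch (maximal chain) of size `ℵ₁`. -/
structure IsWideAronszajn (T : Type u) [PartialOrder T] : Prop where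
  tree : IsTree T
  height : HasHeight T ω₁
  normal : IsNormal T ω₁
  levels : ∀ α, #(level T α) ≤ ℵ₁
  branches : ∀ b : Set T, IsMaxChain (· ≤ ·) b → #b ≠ ℵ₁

/-- An `ω₁`-tree: a normal tree of height `ω₁` whose levels are countable. -/
structure IsOmegaOneTree (T : Type u) [PartialOrder T] : Prop where
  tree : IsTree T
  height : HasHeight T ω₁
  normal : IsNormal T ω₁
  levels : ∀ α, (level T α).Countable

/-- A tree is special if it is a union of countably many antichains. -/
def Special (T : Type u) [PartialOrder T] : Prop :=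
  ∃ A : ℕ → Set T, (∀ n, IsAntichain (· ≤ ·) (A n)) ∧ ⋃ n, A n = Set.univ

/-- `S` embeds into `T`. -/
def Embeds (S : Type) [PartialOrder S] (T : Type u) [PartialOrder T] : Prop :=
  ∃ e : S → T, Function.Injective e ∧ ∀ s s', s < s' ↔ e s < e s'

/-! ### Forcing notions -/

/-- The forcing notion `P` adds no new real: for each name for a subset of `ω`, given by a
sequence `U` of downward closed subsets of `P` (where `U n` is the set of the conditions which put
`n` into the set), the conditions which decide the entire subset of `ω` are dense. -/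
def AddsNoReal (P : Type) [Preorder P] : Prop :=
  ∀ U : ℕ → Set P, (∀ n, IsLowerSet (U n)) → ∀ p : P, ∃ q ≤ p, ∀ n,
    (∀ r ≤ q, ∃ s ≤ r, s ∈ U n) ∨ ∀ r ≤ q, r ∉ U n

/-- The forcing notion `P` makes `T` special in every generic extension: there is a name `f` for a
function from `T` to `ω` which is not constant on any pair of comparable distinct nodes. Here
`f t n` is the set of the conditions which put the pair `(t, n)` into the function. -/
def MakesSpecial (P : Type) [Preorder P] (T : Type) [PartialOrder T] : Prop :=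
  ∃ f : T → ℕ → Set P, (∀ t n, IsLowerSet (f t n)) ∧ (∀ t, ∀ p : P, ∃ q ≤ p, ∃ n, q ∈ f t n) ∧
    (∀ t n m, ∀ p ∈ f t n, p ∈ f t m → n = m) ∧
    ∀ s t, s < t → ∀ n, ∀ p ∈ f s n, p ∉ f t n

/-- `T` can be specialized without adding reals: some (nonempty) forcing notion which adds no new
real makes `T` special in every generic extension. -/
def CanBeSpecializedWithoutReals (T : Type) [PartialOrder T] : Prop :=
  ∃ (P : Type) (_ : Preorder P), Nonempty P ∧ AddsNoReal P ∧ MakesSpecial P T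

/-! ### Generalities -/

/-- the part of an order isomorphism below a point -/
def isoBelow {A B : Type*} [PartialOrder A] [PartialOrder B] {a : A} {b : B}
    (φ : Iio a ≃o Iio b) (c : Iio a) : Iio c.1 ≃o Iio (φ c).1 where
  toFun x := ⟨(φ ⟨x.1, lt_trans x.2 c.2⟩).1, by
    have h1 : (⟨x.1, lt_trans x.2 c.2⟩ : Iio a) < c := x.2
    exact φ.lt_iff_lt.2 h1⟩
  invFun y := ⟨(φ.symm ⟨y.1, lt_trans y.2 (φ c).2⟩).1, by
    have h1 : (⟨y.1, lt_trans y.2 (φ c).2⟩ : Iio b) < φ c := y.2
    have h2 := φ.symm.lt_iff_lt.2 h1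
    rw [φ.symm_apply_apply] at h2
    exact h2⟩
  left_inv x := by
    have h := congrArg Subtype.val (φ.symm_apply_apply (⟨x.1, lt_trans x.2 c.2⟩ : Iio a))
    exact Subtype.ext h
  right_inv y := by
    have h := congrArg Subtype.val (φ.apply_symm_apply (⟨y.1, lt_trans y.2 (φ c).2⟩ : Iio b))
    exact Subtype.ext h
  map_rel_iff' := by
    intro x y
    show (φ ⟨x.1, _⟩) ≤ (φ ⟨y.1, _⟩) ↔ x ≤ y
    rw [φ.le_iff_le]
    rfl

lemma level_unique {α β : Ordinal.{u}} (h : Nonempty (Iio α ≃o Iio β)) : α = β := by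
  obtain ⟨e⟩ := h
  have h1 : typeLT (Iio α) = typeLT (Iio β) := type_eq.2 ⟨e.toRelIsoLT⟩
  rw [type_lt_Iio, type_lt_Iio] at h1
  exact Ordinal.lift_inj.1 h1

section gen
variable {T : Type u} [PartialOrder T]

lemma eq_of_level {x : T} {α β : Ordinal.{u}} (h1 : x ∈ level T α) (h2 : x ∈ level T β) :
    α = β := by
  obtain ⟨e1⟩ := h1
  obtain ⟨e2⟩ := h2
  exact level_unique ⟨e1.symm.trans e2⟩

lemma exists_proj {x : T} {α β : Ordinal.{u}} (h : x ∈ level T α) (hβ : β < α) :
    ∃ y < x, y ∈ level T β := by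
  obtain ⟨φ⟩ := h
  refine ⟨(φ.symm ⟨β, hβ⟩).1, (φ.symm ⟨β, hβ⟩).2, ?_⟩
  have h1 := isoBelow φ (φ.symm ⟨β, hβ⟩)
  rw [φ.apply_symm_apply] at h1
  exact ⟨h1⟩

lemma level_lt {x y : T} {α β : Ordinal.{u}} (h : x ∈ level T α) (h' : y ∈ level T β)
    (hxy : y < x) : β < α := by
  obtain ⟨φ⟩ := h
  have h1 : y ∈ level T (φ ⟨y, hxy⟩).1 := ⟨isoBelow φ ⟨y, hxy⟩⟩
  rw [eq_of_level h' h1]
  exact (φ ⟨y, hxy⟩).2

lemma comparable (hT : IsTree T) {x y z : T} (hx : x ≤ z) (hy : y ≤ z) : x ≤ y ∨ y ≤ x := by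
  rcases hx.eq_or_lt with rfl | hx
  · exact Or.inr hy
  rcases hy.eq_or_lt with rfl | hy
  · exact Or.inl hx.le
  have := hT z
  rcases trichotomous_of (fun a b : Iio z => a < b) ⟨x, hx⟩ ⟨y, hy⟩ with h | h | h
  · exact Or.inl (le_of_lt h)
  · exact Or.inl (le_of_eq (congrArg Subtype.val h))
  · exact Or.inr (le_of_lt h)

lemma exists_level (hT : IsTree T) (hh : HasHeight T ω₁) (x : T) :
    ∃ α < (ω₁ : Ordinal.{u}), x ∈ level T α := by
  have := hT x
  have h1 : x ∈ level T (type fun a b : Iio x => a < b) :=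
    ⟨(OrderIso.ofRelIsoLT (enum fun a b : Iio x => a < b)).symm⟩
  refine ⟨_, ?_, h1⟩
  by_contra hcon
  rw [not_lt] at hcon
  have h2 : level T ω₁ = ∅ := hh.1
  rcases hcon.eq_or_lt with h3 | h3
  · rw [← h3, h2] at h1
    exact h1
  · obtain ⟨y, -, hy⟩ := exists_proj h1 h3
    rw [h2] at hy
    exact hy

end gen

/-! ### The well-ordered set of countable ordinals -/

/-- the well-ordered set of the countable ordinals -/
abbrev O : Type := (ω₁ : Ordinal.{0}).ToType

lemma mk_O : #O = ℵ₁ := by rw [mk_toType, card_omega]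

lemma countable_Iio (a : O) : (Iio a).Countable := by
  rw [← le_aleph0_iff_set_countable, ← lt_aleph_one_iff]
  have h1 := Cardinal.mk_Iio_lt a (by rw [mk_O, ord_aleph]; exact (Ordinal.type_toType _).symm)
  rwa [mk_O] at h1

lemma countable_Iic (a : O) : (Iic a).Countable := by
  have : Iic a = insert a (Iio a) := by
    ext x
    simp [le_iff_lt_or_eq, or_comm]
  rw [this]
  exact (countable_Iio a).insert a

/-- an element of `O` as an ordinal -/
noncomputable def toO (a : O) : Ordinal.{0} := (ToType.mk.symm a).1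

lemma toO_lt (a : O) : toO a < ω₁ := (ToType.mk.symm a).2

lemma toO_lt_toO {a b : O} : toO a < toO b ↔ a < b := by
  show (ToType.mk.symm a).1 < (ToType.mk.symm b).1 ↔ a < b
  rw [Subtype.coe_lt_coe, OrderIso.lt_iff_lt]

lemma exists_toO {α : Ordinal.{0}} (h : α < ω₁) : ∃ a : O, toO a = α :=
  ⟨ToType.mk ⟨α, h⟩, by
    show (ToType.mk.symm (ToType.mk ⟨α, h⟩)).1 = α
    rw [OrderIso.symm_apply_apply]⟩

lemma toO_inj {a b : O} (h : toO a = toO b) : a = b :=
  ToType.mk.symm.injective (Subtype.ext h)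

/-- the initial segments of `O` are order-isomorphic to initial segments of the ordinals -/
noncomputable def isoO (a : O) : Iio a ≃o Iio (toO a) where
  toFun x := ⟨toO x.1, toO_lt_toO.2 x.2⟩
  invFun y := ⟨ToType.mk ⟨y.1, lt_trans y.2 (toO_lt a)⟩, by
    have h1 : (⟨y.1, lt_trans y.2 (toO_lt a)⟩ : Iio (ω₁ : Ordinal.{0})) < ToType.mk.symm a := y.2
    have h2 := ToType.mk.lt_iff_lt.2 h1
    rw [OrderIso.apply_symm_apply] at h2
    exact h2⟩
  left_inv x := by
    apply Subtype.ext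
    show ToType.mk (⟨(ToType.mk.symm x.1).1, _⟩ : Iio (ω₁ : Ordinal.{0})) = x.1
    exact ToType.mk.apply_symm_apply x.1
  right_inv y := by
    apply Subtype.ext
    show (ToType.mk.symm (ToType.mk (⟨y.1, _⟩ : Iio (ω₁ : Ordinal.{0})))).1 = y.1
    rw [OrderIso.symm_apply_apply]
  map_rel_iff' := by
    intro x y
    show toO x.1 ≤ toO y.1 ↔ x ≤ y
    rw [← not_lt, toO_lt_toO, not_lt]
    rfl

lemma exists_w : ∃ w : O, (Iio w).Infinite ∧ ∀ b < w, (Iio b).Finite := by
  have hne : {w : O | (Iio w).Infinite}.Nonempty := by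
    obtain ⟨a, ha⟩ := exists_toO omega0_lt_omega_one
    refine ⟨a, ?_⟩
    have h1 : Infinite (Iio (toO a)) := by
      rw [ha]
      exact Infinite.of_injective (fun n : ℕ => (⟨(n : Ordinal.{0}), natCast_lt_omega0 n⟩ :
        Iio (ω : Ordinal.{0}))) fun m n h => by
          have := congrArg Subtype.val h
          exact Nat.cast_injective this
    exact Set.infinite_coe_iff.1 ((isoO a).toEquiv.infinite_iff.2 h1)
  have hwf : WellFounded fun a b : O => a < b := wellFounded_lt
  refine ⟨hwf.min _ hne, hwf.min_mem _ hne, fun b hb => ?_⟩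
  by_contra hcon
  exact hwf.not_lt_min _ hcon hb

/-- the element of `O` which corresponds to `ω` -/
noncomputable def w : O := exists_w.choose

lemma w_inf : (Iio w).Infinite := exists_w.choose_spec.1

lemma w_fin {b : O} (hb : b < w) : (Iio b).Finite := exists_w.choose_spec.2 b hb

lemma exists_between_w {b : O} (hb : b < w) : ∃ c, b < c ∧ c < w := by
  by_contra hcon
  push Not at hcon
  refine w_inf (((w_fin hb).insert b).subset ?_)
  intro c hc
  rcases lt_trichotomy b c with h | h | h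
  · exact absurd hc (not_lt.2 (hcon c h))
  · exact Or.inl h.symm
  · exact Or.inr h

/-- an injective function from the predecessors of `a` (and `a` itself) to `ℕ` -/
lemma exists_code (a : O) : ∃ f : O → ℕ, Set.InjOn f (Iic a) := Set.countable_iff_exists_injOn.1 (countable_Iic a)

/-- injective functions from the initial segments of `O` to `ℕ` -/
noncomputable def code (a : O) : O → ℕ := (exists_code a).choose

lemma code_inj (a : O) : Set.InjOn (code a) (Iic a) := (exists_code a).choose_spec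

/-! ### The set of `ℵ₁` many branches -/

lemma exists_X : ∃ X : Set (O → Bool), #X = ℵ₁ ∧ ∀ x ∈ X, ∀ ξ, w ≤ ξ → x ξ = false := by
  classical
  have h1 : ℵ₁ ≤ #{x : O → Bool | ∀ ξ, w ≤ ξ → x ξ = false} := by
    have h2 : #(Iio w → Bool) ≤ #{x : O → Bool | ∀ ξ, w ≤ ξ → x ξ = false} := by
      refine mk_le_of_injective (f := fun g : Iio w → Bool =>
        (⟨fun ξ => if h : ξ < w then g ⟨ξ, h⟩ else false, fun ξ hξ => dif_neg (not_lt.2 hξ)⟩ :
          {x : O → Bool | ∀ ξ, w ≤ ξ → x ξ = false})) ?_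
      intro g g' hg
      funext ξ
      have h3 : (if h : ξ.1 < w then g ⟨ξ.1, h⟩ else false) =
          (if h : ξ.1 < w then g' ⟨ξ.1, h⟩ else false) := congrFun (congrArg Subtype.val hg) ξ.1
      rw [dif_pos (show ξ.1 < w from ξ.2), dif_pos (show ξ.1 < w from ξ.2)] at h3
      exact h3
    refine le_trans ?_ h2
    have h4 : ℵ₀ ≤ #(Iio w) := by
      rw [← infinite_iff]
      exact Set.infinite_coe_iff.2 w_inf
    have h5 : #(Iio w → Bool) = 2 ^ #(Iio w) := by simp
    rw [h5, ← succ_aleph0]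
    exact Order.succ_le_of_lt (lt_of_le_of_lt h4 (cantor _))
  obtain ⟨X, hX, hX1⟩ := le_mk_iff_exists_subset.1 h1
  exact ⟨X, hX1, fun x hx => hX hx⟩

/-- `ℵ₁` many binary sequences of length `ω` -/
noncomputable def X : Set (O → Bool) := exists_X.choose

lemma mk_X : #X = ℵ₁ := exists_X.choose_spec.1

lemma X_false {x : O → Bool} (hx : x ∈ X) {ξ : O} (h : w ≤ ξ) : x ξ = false :=
  exists_X.choose_spec.2 x hx ξ h

/-! ### The nodes -/

/-- the values of the nodes -/
abbrev V : Type := ℕ × O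

/-- a fixed element of `O` -/
noncomputable def o0 : O := w

/-- the default value -/
noncomputable def v0 : V := (0, o0)

/-- the step function given by a list of pairs (starting point, value) -/
noncomputable def stepf : List (O × O) → O → V
  | [], _ => v0
  | p :: L, ξ => if p.1 ≤ ξ then (L.length + 1, p.2) else stepf L ξ

lemma stepf_nil (ξ : O) : stepf [] ξ = v0 := rfl

lemma stepf_cons (p : O × O) (L : List (O × O)) (ξ : O) :
    stepf (p :: L) ξ = if p.1 ≤ ξ then (L.length + 1, p.2) else stepf L ξ := rfl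

lemma stepf_le (L : List (O × O)) (ξ : O) : (stepf L ξ).1 ≤ L.length := by
  induction L with
  | nil => exact le_rfl
  | cons p L ih =>
    rw [stepf_cons]
    split_ifs
    · exact le_rfl
    · exact ih.trans (Nat.le_succ _)

lemma stepf_eq (L : List (O × O)) {ξ ξ' : O} (h : (stepf L ξ).1 = (stepf L ξ').1) :
    stepf L ξ = stepf L ξ' := by
  induction L with
  | nil => rfl
  | cons p L ih =>
    rw [stepf_cons, stepf_cons] at h ⊢
    split_ifs at h ⊢ with h1 h2 h2
    · rfl
    · have := stepf_le L ξ'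
      simp only at h
      omega
    · have := stepf_le L ξ
      simp only at h
      omega
    · exact ih h

lemma stepf_last (L : List (O × O)) {β : O} (hβ : w < β) :
    ∃ ξ₀, w ≤ ξ₀ ∧ ξ₀ < β ∧ ∀ ξ, ξ₀ ≤ ξ → ξ < β → stepf L ξ = stepf L ξ₀ := by
  induction L with
  | nil => exact ⟨w, le_rfl, hβ, fun _ _ _ => rfl⟩
  | cons p L ih =>
    by_cases hp : p.1 < β
    · refine ⟨max p.1 w, le_max_right _ _, max_lt hp hβ, fun ξ h1 _ => ?_⟩
      rw [stepf_cons, stepf_cons, if_pos ((le_max_left _ _).trans h1), if_pos (le_max_left _ _)]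
    · obtain ⟨ξ₀, h1, h2, h3⟩ := ih
      refine ⟨ξ₀, h1, h2, fun ξ h4 h5 => ?_⟩
      rw [not_lt] at hp
      rw [stepf_cons, stepf_cons, if_neg (not_le.2 (h5.trans_le hp)),
        if_neg (not_le.2 (h2.trans_le hp)), h3 ξ h4 h5]

/-- the function with the first part `x` and the second part `stepf L` -/
noncomputable def glue (x : O → Bool) (L : List (O × O)) (ξ : O) : V :=
  if ξ < w then (if x ξ then 1 else 0, o0) else stepf L ξ

/-- restriction to the predecessors of `β` -/
noncomputable def restr (β : O) (t : O → V) (ξ : O) : V := if ξ < β then t ξ else v0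

lemma restr_of_lt {β : O} {t : O → V} {ξ : O} (h : ξ < β) : restr β t ξ = t ξ := if_pos h

lemma restr_of_le {β : O} {t : O → V} {ξ : O} (h : β ≤ ξ) : restr β t ξ = v0 :=
  if_neg (not_lt.2 h)

lemma restr_restr {β γ : O} (h : γ ≤ β) (t : O → V) : restr γ (restr β t) = restr γ t := by
  funext ξ
  by_cases h1 : ξ < γ
  · rw [restr_of_lt h1, restr_of_lt h1, restr_of_lt (h1.trans_le h)]
  · rw [restr_of_le (not_lt.1 h1), restr_of_le (not_lt.1 h1)]

lemma restr_ext {β : O} {t t' : O → V} (h : ∀ ξ < β, t ξ = t' ξ) : restr β t = restr β t' := by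
  funext ξ
  by_cases h1 : ξ < β
  · rw [restr_of_lt h1, restr_of_lt h1, h ξ h1]
  · rw [restr_of_le (not_lt.1 h1), restr_of_le (not_lt.1 h1)]

/-- the pairs (domain, function) which are nodes of the tree -/
def IsNode (p : O × (O → V)) : Prop :=
  ∃ x ∈ X, ∃ L : List (O × O), (∀ ξ, w ≤ ξ → ξ < p.1 → ξ < (stepf L ξ).2) ∧
    p.2 = restr p.1 (glue x L)

/-- the tree -/
def S : Type := {p : O × (O → V) // IsNode p}

/-- the domain of a node -/
def S.dom (p : S) : O := p.1.1

/-- the function of a node -/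
def S.fn (p : S) : O → V := p.1.2

lemma S.fn_eq (p : S) : p.fn = restr p.dom p.fn := by
  obtain ⟨⟨β, t⟩, x, -, L, -, h⟩ := p
  show t = restr β t
  have h1 : t = restr β (glue x L) := h
  rw [h1, restr_restr le_rfl]

lemma S.ext {p q : S} (h : p.dom = q.dom) (h' : ∀ ξ < p.dom, p.fn ξ = q.fn ξ) : p = q := by
  have h1 : p.fn = q.fn := by
    rw [p.fn_eq, q.fn_eq, ← h]
    exact restr_ext h'
  exact Subtype.ext (Prod.ext h h1)

instance : PartialOrder S where
  le p q := p.dom ≤ q.dom ∧ ∀ ξ < p.dom, p.fn ξ = q.fn ξ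
  le_refl p := ⟨le_rfl, fun _ _ => rfl⟩
  le_trans p q r h h' := ⟨h.1.trans h'.1, fun ξ hξ => by
    rw [h.2 ξ hξ, h'.2 ξ (hξ.trans_le h.1)]⟩
  le_antisymm p q h h' := S.ext (le_antisymm h.1 h'.1) h.2

lemma S.le_def {p q : S} : p ≤ q ↔ p.dom ≤ q.dom ∧ ∀ ξ < p.dom, p.fn ξ = q.fn ξ := Iff.rfl

lemma S.dom_lt {p q : S} (h : p < q) : p.dom < q.dom := by
  refine lt_of_le_of_ne h.le.1 fun h1 => h.ne (S.ext h1 h.le.2)

lemma S.lt_def {p q : S} : p < q ↔ p.dom < q.dom ∧ ∀ ξ < p.dom, p.fn ξ = q.fn ξ := by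
  constructor
  · intro h
    exact ⟨S.dom_lt h, h.le.2⟩
  · rintro ⟨h1, h2⟩
    refine lt_of_le_of_ne ⟨h1.le, h2⟩ ?_
    rintro rfl
    exact lt_irrefl _ h1

/-- the restriction of a node -/
noncomputable def S.res (q : S) (γ : O) (hγ : γ ≤ q.dom) : S :=
  ⟨(γ, restr γ q.fn), by
    obtain ⟨⟨β, t⟩, x, hx, L, hL, h⟩ := q
    refine ⟨x, hx, L, fun ξ h1 h2 => hL ξ h1 (lt_of_lt_of_le h2 hγ), ?_⟩
    show restr γ t = restr γ (glue x L)
    have h1 : t = restr β (glue x L) := h
    rw [h1, restr_restr (show γ ≤ β from hγ)]⟩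

lemma S.res_dom (q : S) (γ : O) (hγ : γ ≤ q.dom) : (q.res γ hγ).dom = γ := rfl

lemma S.res_fn (q : S) (γ : O) (hγ : γ ≤ q.dom) : (q.res γ hγ).fn = restr γ q.fn := rfl

lemma S.res_le (q : S) (γ : O) (hγ : γ ≤ q.dom) : q.res γ hγ ≤ q :=
  ⟨hγ, fun _ hξ => restr_of_lt hξ⟩

lemma S.res_lt (q : S) (γ : O) (hγ : γ < q.dom) : q.res γ hγ.le < q :=
  S.lt_def.2 ⟨hγ, fun _ hξ => restr_of_lt hξ⟩

lemma S.eq_res {p q : S} (h : p ≤ q) : p = q.res p.dom h.1 :=
  S.ext rfl fun ξ hξ => by
    rw [S.res_fn, restr_of_lt hξ, h.2 ξ hξ]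

/-- the predecessors of a node are order-isomorphic to the predecessors of its domain -/
noncomputable def isoS (q : S) : Iio q ≃o Iio q.dom where
  toFun p := ⟨p.1.dom, S.dom_lt p.2⟩
  invFun γ := ⟨q.res γ.1 γ.2.le, q.res_lt γ.1 γ.2⟩
  left_inv p := Subtype.ext (S.eq_res (le_of_lt p.2)).symm
  right_inv γ := rfl
  map_rel_iff' := by
    intro p p'
    show p.1.dom ≤ p'.1.dom ↔ p.1 ≤ p'.1
    refine ⟨fun h => ⟨h, fun ξ hξ => ?_⟩, fun h => h.1⟩
    have hp : p.1 ≤ q := le_of_lt p.2
    have hp' : p'.1 ≤ q := le_of_lt p'.2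
    rw [hp.2 ξ hξ, hp'.2 ξ (hξ.trans_le h)]

lemma mem_level_S {q : S} {α : Ordinal.{0}} : q ∈ level S α ↔ toO q.dom = α := by
  have h1 : q ∈ level S (toO q.dom) := ⟨(isoS q).trans (isoO q.dom)⟩
  constructor
  · intro h
    exact eq_of_level h1 h
  · rintro rfl
    exact h1

lemma tree_S : IsTree S := by
  intro q
  exact (isoS q).toRelIsoLT.toRelEmbedding.isWellOrder

/-- the extension property -/
lemma exists_ext (q : S) {γ : O} (hγ : q.dom ≤ γ) : ∃ q' : S, q ≤ q' ∧ q'.dom = γ := by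
  obtain ⟨⟨β, t⟩, x, hx, L, hL, h⟩ := q
  have h1 : t = restr β (glue x L) := h
  have hγ' : β ≤ γ := hγ
  by_cases hβ : β ≤ w
  · refine ⟨⟨(γ, restr γ (glue x [(w, γ)])), x, hx, [(w, γ)], ?_, rfl⟩, ⟨hγ, ?_⟩, rfl⟩
    · intro ξ h2 h3
      rw [stepf_cons, if_pos h2]
      exact h3
    · intro ξ hξ
      show t ξ = restr γ (glue x [(w, γ)]) ξ
      have hξ' : ξ < β := hξ
      rw [h1, restr_of_lt hξ', restr_of_lt (hξ'.trans_le hγ')]
      show (if ξ < w then _ else _) = (if ξ < w then _ else _)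
      rw [if_pos (hξ'.trans_le hβ), if_pos (hξ'.trans_le hβ)]
  · rw [not_le] at hβ
    refine ⟨⟨(γ, restr γ (glue x ((β, γ) :: L))), x, hx, (β, γ) :: L, ?_, rfl⟩, ⟨hγ, ?_⟩, rfl⟩
    · intro ξ h2 h3
      rw [stepf_cons]
      split_ifs with h4
      · exact h3
      · exact hL ξ h2 (not_le.1 h4)
    · intro ξ hξ
      show t ξ = restr γ (glue x ((β, γ) :: L)) ξ
      have hξ' : ξ < β := hξ
      rw [h1, restr_of_lt hξ', restr_of_lt (hξ'.trans_le hγ')]
      show (if ξ < w then _ else _) = (if ξ < w then _ else _)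
      congr 1
      rw [stepf_cons, if_neg (not_le.2 hξ')]

lemma X_nonempty : X.Nonempty := by
  rw [← Set.nonempty_coe_sort, ← mk_ne_zero_iff, mk_X]
  exact (aleph_pos 1).ne'

/-- the node of the level `β ≤ w` given by `x ∈ X` -/
noncomputable def low (x : X) (β : O) (hβ : β ≤ w) : S :=
  ⟨(β, restr β (glue x.1 [])), x.1, x.2, [], fun _ h1 h2 =>
    absurd (lt_of_lt_of_le h2 hβ) (not_lt.2 h1), rfl⟩

lemma low_dom (x : X) (β : O) (hβ : β ≤ w) : (low x β hβ).dom = β := rfl

lemma low_fn (x : X) (β : O) (hβ : β ≤ w) : (low x β hβ).fn = restr β (glue x.1 []) := rfl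

lemma low_lt (x : X) {β γ : O} (h : β < γ) (hγ : γ ≤ w) :
    low x β (h.le.trans hγ) < low x γ hγ :=
  S.lt_def.2 ⟨h, fun ξ hξ => by
    have hξ' : ξ < β := hξ
    rw [low_fn, low_fn, restr_of_lt hξ', restr_of_lt (hξ'.trans h)]⟩

instance : Nonempty S := by
  obtain ⟨x, hx⟩ := X_nonempty
  exact ⟨low ⟨x, hx⟩ w le_rfl⟩

lemma exists_dom (γ : O) : ∃ q : S, q.dom = γ := by
  obtain ⟨x, hx⟩ := X_nonempty
  by_cases h : γ ≤ w
  · exact ⟨low ⟨x, hx⟩ γ h, rfl⟩
  · obtain ⟨q, -, hq⟩ := exists_ext (low ⟨x, hx⟩ w le_rfl) (γ := γ) (not_le.1 h).le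
    exact ⟨q, hq⟩

lemma height_S : HasHeight S ω₁ := by
  constructor
  · show level S ω₁ = ∅
    rw [Set.eq_empty_iff_forall_notMem]
    intro q hq
    rw [mem_level_S] at hq
    exact (toO_lt q.dom).ne hq
  · intro α hα
    by_contra hcon
    rw [not_le] at hcon
    obtain ⟨a, ha⟩ := exists_toO hcon
    obtain ⟨q, hq⟩ := exists_dom a
    have h1 : q ∈ level S α := mem_level_S.2 (by rw [hq, ha])
    have hα' : level S α = ∅ := hα
    rw [hα'] at h1
    exact h1

lemma normal_S : IsNormal S ω₁ := by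
  refine ⟨?_, ?_, ?_⟩
  · obtain ⟨a, ha⟩ := exists_toO (α := 0) (omega_pos 1)
    obtain ⟨q, hq⟩ := exists_dom a
    refine ⟨q, mem_level_S.2 (by rw [hq, ha]), ?_⟩
    intro q' hq'
    have hq'1 := mem_level_S.1 hq'
    have h1 : q'.dom = q.dom := toO_inj (by rw [hq'1, hq, ha])
    refine S.ext h1 fun ξ hξ => ?_
    have h2 := toO_lt_toO.2 hξ
    rw [hq'1] at h2
    exact absurd h2 (not_lt.2 bot_le)
  · intro q α hα
    obtain ⟨a, ha⟩ := exists_toO hα
    rcases le_total q.dom a with h | h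
    · obtain ⟨q', h1, h2⟩ := exists_ext q h
      exact ⟨q', mem_level_S.2 (by rw [h2, ha]), Or.inl h1⟩
    · exact ⟨q.res a h, mem_level_S.2 (by rw [S.res_dom, ha]), Or.inr (q.res_le a h)⟩
  · intro α hα p hp q hq hne
    rw [mem_level_S] at hp hq
    have hd : p.dom = q.dom := toO_inj (by rw [hp, hq])
    obtain ⟨ξ, hξ, hξ'⟩ : ∃ ξ < p.dom, p.fn ξ ≠ q.fn ξ := by
      by_contra hcon
      push Not at hcon
      exact hne (S.ext hd hcon)
    have h1 : toO ξ < α := by
      rw [← hp]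
      exact toO_lt_toO.2 hξ
    have h2 : Order.succ (toO ξ) < α := hα.succ_lt h1
    obtain ⟨γ, hγ⟩ := exists_toO (h2.trans (hp ▸ toO_lt p.dom))
    have h3 : ξ < γ := by
      rw [← toO_lt_toO, hγ]
      exact Order.lt_succ _
    have h4 : γ < p.dom := by
      rw [← toO_lt_toO, hγ, hp]
      exact h2
    have h5 : γ < q.dom := hd ▸ h4
    refine ⟨toO γ, hγ ▸ h2, p.res γ h4.le, mem_level_S.2 rfl, q.res γ h5.le, mem_level_S.2 rfl,
      p.res_lt γ h4, q.res_lt γ h5, ?_⟩
    intro h6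
    have h7 := congrArg (fun r : S => r.fn ξ) h6
    simp only [S.res_fn] at h7
    rw [restr_of_lt h3, restr_of_lt h3] at h7
    exact hξ' h7

lemma mk_S_le : #S ≤ ℵ₁ := by
  have h1 : #S ≤ #(X × List (O × O) × O) := by
    have hex : ∀ q : S, ∃ y : X × List (O × O) × O, q.dom = y.2.2 ∧
        q.fn = restr y.2.2 (glue y.1.1 y.2.1) := by
      intro q
      obtain ⟨x, hx, L, -, h⟩ := q.2
      exact ⟨(⟨x, hx⟩, L, q.dom), rfl, h⟩
    choose f hf hf' using hex
    refine mk_le_of_injective (f := f) fun q q' h => S.ext ?_ fun ξ _ => ?_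
    · rw [hf q, hf q', h]
    · rw [hf' q, hf' q', h]
  refine h1.trans ?_
  have h2 : #(List (O × O)) = ℵ₁ := by
    have h3 : #(O × O) = ℵ₁ := by
      rw [mk_prod]
      simp only [Cardinal.lift_id, mk_O]
      exact mul_eq_self (aleph0_le_aleph 1)
    have h4 : Infinite (O × O) := by
      rw [infinite_iff, h3]
      exact aleph0_le_aleph 1
    rw [mk_list_eq_mk, h3]
  rw [mk_prod, mk_prod]
  simp only [Cardinal.lift_id, mk_O, h2, mk_X]
  rw [mul_eq_self (aleph0_le_aleph 1), mul_eq_self (aleph0_le_aleph 1)]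

/-! ### The tree is special -/

/-- the antichains -/
def anti : ℕ ⊕ (ℕ × ℕ) → Set S
  | Sum.inl n => {q | q.dom ≤ w ∧ code w q.dom = n}
  | Sum.inr m => {q | ∃ ξ₀, w ≤ ξ₀ ∧ ξ₀ < q.dom ∧ (q.fn ξ₀).1 = m.1 ∧ q.dom ≤ (q.fn ξ₀).2 ∧
      code (q.fn ξ₀).2 q.dom = m.2}

lemma anti_inl (n : ℕ) : IsAntichain (· ≤ ·) (anti (Sum.inl n)) := by
  intro p hp q hq hne hle
  obtain ⟨h1, h2⟩ := hp
  obtain ⟨h3, h4⟩ := hq
  exact hne (S.ext (code_inj w h1 h3 (h2.trans h4.symm)) hle.2)

lemma anti_inr (m : ℕ × ℕ) : IsAntichain (· ≤ ·) (anti (Sum.inr m)) := by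
  intro p hp q hq hne hle
  obtain ⟨ξ, h1, h2, h3, h4, h5⟩ := hp
  obtain ⟨ξ', h1', h2', h3', h4', h5'⟩ := hq
  have h6 : p.fn ξ = q.fn ξ' := by
    rw [hle.2 ξ h2]
    obtain ⟨x, -, L, -, hq2⟩ := q.2
    have hq3 : q.fn = restr q.dom (glue x L) := hq2
    have h7 : ∀ ζ, w ≤ ζ → ζ < q.dom → q.fn ζ = stepf L ζ := by
      intro ζ h8 h9
      rw [hq3, restr_of_lt h9]
      exact if_neg (not_lt.2 h8)
    have h10 : ξ < q.dom := h2.trans_le hle.1
    rw [h7 ξ h1 h10, h7 ξ' h1' h2']
    apply stepf_eq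
    rw [← h7 ξ h1 h10, ← h7 ξ' h1' h2', ← hle.2 ξ h2, h3, h3']
  rw [← h6] at h4' h5'
  exact hne (S.ext (code_inj _ h4 h4' (h5.trans h5'.symm)) hle.2)

lemma mem_anti (q : S) : ∃ i, q ∈ anti i := by
  by_cases h : q.dom ≤ w
  · exact ⟨Sum.inl _, h, rfl⟩
  · rw [not_le] at h
    obtain ⟨x, -, L, hL, hq2⟩ := q.2
    have hq3 : q.fn = restr q.dom (glue x L) := hq2
    have h7 : ∀ ζ, w ≤ ζ → ζ < q.dom → q.fn ζ = stepf L ζ := by
      intro ζ h8 h9
      rw [hq3, restr_of_lt h9]
      exact if_neg (not_lt.2 h8)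
    obtain ⟨ξ₀, h1, h2, h3⟩ := stepf_last L h
    refine ⟨Sum.inr ((q.fn ξ₀).1, code (q.fn ξ₀).2 q.dom), ξ₀, h1, h2, rfl, ?_, rfl⟩
    by_contra hcon
    rw [not_le] at hcon
    have h4 : ξ₀ < (q.fn ξ₀).2 := by
      rw [h7 ξ₀ h1 h2]
      exact hL ξ₀ h1 h2
    have h5 := hL _ (h1.trans h4.le) hcon
    rw [h3 _ h4.le hcon, ← h7 ξ₀ h1 h2] at h5
    exact lt_irrefl _ h5

lemma special_S : Special S := by
  obtain ⟨f, hf⟩ := exists_surjective_nat (ℕ ⊕ (ℕ × ℕ))
  refine ⟨fun n => anti (f n), fun n => ?_, ?_⟩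
  · show IsAntichain (· ≤ ·) (anti (f n))
    rcases f n with m | m
    · exact anti_inl m
    · exact anti_inr m
  · rw [Set.eq_univ_iff_forall]
    intro q
    obtain ⟨i, hi⟩ := mem_anti q
    obtain ⟨n, rfl⟩ := hf i
    exact mem_iUnion.2 ⟨n, hi⟩

lemma countable_chain {T : Type u} [PartialOrder T] (hT : Special T) (b : Set T)
    (hb : IsChain (· ≤ ·) b) : b.Countable := by
  obtain ⟨A, hA, hU⟩ := hT
  have h1 : b = ⋃ n, b ∩ A n := by rw [← Set.inter_iUnion, hU, Set.inter_univ]
  rw [h1]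
  refine countable_iUnion fun n => Set.Subsingleton.countable ?_
  intro x hx y hy
  by_contra hne
  rcases hb hx.1 hy.1 hne with h | h
  · exact hA n hx.2 hy.2 hne h
  · exact hA n hy.2 hx.2 (Ne.symm hne) h

lemma aronszajn_S : IsWideAronszajn S where
  tree := tree_S
  height := height_S
  normal := normal_S
  levels α := (mk_set_le _).trans mk_S_le
  branches b hb h := by
    have h1 := le_aleph0_iff_set_countable.2 (countable_chain special_S b hb.1)
    rw [h] at h1
    exact absurd h1 (not_le.2 aleph0_lt_aleph_one)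

/-! ### The tree does not embed into any `ω₁`-tree -/

lemma fn_of_lt {p : S} {x : O → Bool} {L : List (O × O)} (h : p.fn = restr p.dom (glue x L))
    {ξ : O} (hξ : ξ < p.dom) (hw : ξ < w) : p.fn ξ = (if x ξ then 1 else 0, o0) := by
  rw [h, restr_of_lt hξ]
  exact if_pos hw

lemma countable_low : {p : S | p.dom < w}.Countable := by
  classical
  have h1 : {p : S | p.dom < w} = ⋃ b ∈ Iio w, {p : S | p.dom = b} := by
    ext p
    simp
  rw [h1]
  refine (countable_Iio w).biUnion fun b hb => ?_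
  have h2 : Finite (Iio b) := w_fin hb
  have h3 : Countable (Iio b → Bool) := inferInstance
  rw [← Set.countable_coe_iff]
  refine Function.Injective.countable (β := Iio b → Bool)
    (f := fun p : {p : S | p.dom = b} => fun ξ : Iio b => decide ((p.1.fn ξ.1).1 = 1)) ?_
  rintro ⟨p, hp⟩ ⟨q, hq⟩ hpq
  have hp' : p.dom = b := hp
  have hq' : q.dom = b := hq
  refine Subtype.ext (S.ext (hp'.trans hq'.symm) fun ξ hξ => ?_)
  have hξb : ξ < b := hp' ▸ hξ
  have h4 : decide ((p.fn ξ).1 = 1) = decide ((q.fn ξ).1 = 1) := congrFun hpq ⟨ξ, hξb⟩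
  obtain ⟨x, -, L, -, h5⟩ := p.2
  obtain ⟨x', -, L', -, h6⟩ := q.2
  show p.fn ξ = q.fn ξ
  rw [fn_of_lt h5 hξ (hξb.trans hb), fn_of_lt h6 (hq' ▸ hξb) (hξb.trans hb)] at h4 ⊢
  cases h7 : x ξ <;> cases h8 : x' ξ <;> simp_all

lemma no_embedding (T : Type u) [PartialOrder T] (hT : IsOmegaOneTree T) : ¬ Embeds S T := by
  rintro ⟨e, he, hlt⟩
  have hle : ∀ p q, e p ≤ e q → p ≤ q := by
    intro p q h
    rcases h.eq_or_lt with h | h
    · exact le_of_eq (he h)
    · exact ((hlt p q).2 h).le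
  have hex := fun p : {p : S | p.dom < w} => exists_level hT.tree hT.height (e p.1)
  choose lev hlev hmem using hex
  have hcD : Countable {p : S | p.dom < w} := countable_low.to_subtype
  obtain ⟨η, hη, hlη⟩ : ∃ η < (ω₁ : Ordinal.{u}), ∀ p, lev p ≤ η :=
    ⟨⨆ p, lev p, iSup_lt_omega_one hlev, fun p => Ordinal.le_iSup lev p⟩
  have hcη : (Iic η).Countable := by
    have h0 : Order.succ η < ω₁ := (isSuccLimit_omega 1).succ_lt hη
    have h1 : Iic η = Iio (Order.succ η) := by
      ext x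
      simp
    rw [h1, ← le_aleph0_iff_set_countable, Cardinal.mk_Iio_ordinal, lift_le_aleph0,
      ← Order.lt_succ_iff, succ_aleph0, ← lt_ord, ord_aleph]
    exact h0
  have hW : (⋃ α ∈ Iic η, level T α).Countable := hcη.biUnion fun α _ => hT.levels α
  have hu : ∀ x : X, ∃ y ∈ ⋃ α ∈ Iic η, level T α, ∀ b, ∀ hb : b < w, e (low x b hb.le) ≤ y := by
    intro x
    obtain ⟨α, hα, hx⟩ := exists_level hT.tree hT.height (e (low x w le_rfl))
    rcases le_or_gt α η with h | h
    · exact ⟨_, mem_iUnion₂.2 ⟨α, h, hx⟩, fun b hb => ((hlt _ _).1 (low_lt x hb le_rfl)).le⟩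
    · obtain ⟨y, hy1, hy2⟩ := exists_proj hx h
      refine ⟨y, mem_iUnion₂.2 ⟨η, Set.mem_Iic.2 le_rfl, hy2⟩, fun b hb => ?_⟩
      rcases comparable hT.tree ((hlt _ _).1 (low_lt x hb le_rfl)).le hy1.le with h1 | h1
      · exact h1
      · rcases h1.eq_or_lt with h1 | h1
        · exact h1.symm.le
        · have h2 := level_lt (hmem ⟨low x b hb.le, hb⟩) hy2 h1
          exact absurd h2 (not_lt.2 (hlη _))
  choose f hf1 hf2 using hu
  have hinj : Function.Injective f := by
    intro x x' hxx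
    by_contra hne
    obtain ⟨ξ, hξ⟩ := Function.ne_iff.1 fun h => hne (Subtype.ext h)
    have hξw : ξ < w := by
      by_contra hcon
      rw [not_lt] at hcon
      exact hξ (by rw [X_false x.2 hcon, X_false x'.2 hcon])
    obtain ⟨b, hb1, hb2⟩ := exists_between_w hξw
    have key : ∀ y y' : X, low y b hb2.le ≤ low y' b hb2.le → y.1 ξ = y'.1 ξ := by
      intro y y' h
      have h1 := h.2 ξ hb1
      rw [fn_of_lt (low_fn y b hb2.le) hb1 hξw, fn_of_lt (low_fn y' b hb2.le) hb1 hξw] at h1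
      cases h7 : y.1 ξ <;> cases h8 : y'.1 ξ <;> simp_all
    rcases comparable hT.tree (hf2 x b hb2) (hxx ▸ hf2 x' b hb2) with h | h
    · exact hξ (key _ _ (hle _ _ h))
    · exact hξ (key _ _ (hle _ _ h)).symm
  have hcW : Countable (⋃ α ∈ Iic η, level T α : Set T) := hW.to_subtype
  have hcX : Countable X := Function.Injective.countable
    (f := fun x => (⟨f x, hf1 x⟩ : (⋃ α ∈ Iic η, level T α : Set T)))
    fun x x' h => hinj (congrArg Subtype.val h)
  have h1 : #X ≤ ℵ₀ := mk_le_aleph0_iff.2 hcX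
  rw [mk_X] at h1
  exact absurd h1 (not_le.2 aleph0_lt_aleph_one)

/-! ### Forcing -/

lemma canBeSpecialized {T : Type} [PartialOrder T] (hT : Special T) :
    CanBeSpecializedWithoutReals T := by
  refine ⟨Unit, inferInstance, inferInstance, ?_, ?_⟩
  · intro U _ p
    refine ⟨p, le_rfl, fun n => ?_⟩
    by_cases h : p ∈ U n
    · exact Or.inl fun r _ => ⟨r, le_rfl, h⟩
    · exact Or.inr fun r _ => h
  · obtain ⟨A, hA, hU⟩ := hT
    have h1 : ∀ t, ∃ n, t ∈ A n := fun t => mem_iUnion.1 (hU ▸ Set.mem_univ t)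
    choose c hc using h1
    refine ⟨fun t n => {_p | c t = n}, fun t n => ?_, fun t p => ?_, ?_, ?_⟩
    · intro a b _ h
      exact h
    · exact ⟨p, le_rfl, c t, rfl⟩
    · intro t n m p h h'
      exact h.symm.trans h'
    · intro s t hst n p h h'
      have h2 : c s = n := h
      have h3 : c t = n := h'
      refine hA n (h2 ▸ hc s) (h3 ▸ hc t) hst.ne hst.le

/-- There is a special tree `S` which is an `(ω₁, ≤ ℵ₁)`-Aronszajn tree -- in particular, `S`
can be specialized without adding reals -- such that `S` does not embed into any `ω₁`-tree. -/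
theorem result : ∃ (S : Type) (_ : PartialOrder S), IsWideAronszajn S ∧ Special S ∧
    CanBeSpecializedWithoutReals S ∧
    ∀ (T : Type u) [PartialOrder T], IsOmegaOneTree T → ¬ Embeds S T :=
  ⟨S, inferInstance, aronszajn_S, special_S, canBeSpecialized special_S,
    fun T _ hT => no_embedding T hT⟩

end Pool.Agent.Results.MP_6e75db_lc.SpecialWideTree
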